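import Mathlib
import Pool.Agent.X30.WS7

/-!
# Exactly `4 k` distinct positive `k`-th powers with few random shifts: the asymptotic formula
-/

set_option autoImplicit false

namespace Pool.Agent.Results.MP_ee77ae_nt.DistinctFourK

open MeasureTheory ProbabilityTheory Filter Topology

/-- the number of values of the random shift with index `m`: it is at most `m ^ η`, for `m ≥ 1`, `η ≥ 0` -/
noncomputable def size (η : ℝ) (m : ℕ) : ℕ := 2 ^ ⌊η * Nat.log 2 m⌋₊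

/-- the left end of the interval of length `2 ^ ⌊h log₂ n⌋` containing `n` (`log₂` rounded down) -/
noncomputable def base (h : ℝ) (n : ℕ) : ℕ :=
  2 ^ ⌊h * Nat.log 2 n⌋₊ * (n / 2 ^ ⌊h * Nat.log 2 n⌋₊)

/-- the number of ordered `4 k`-tuples of pairwise distinct positive integers `x_i` with
`∑ (x_i ^ k + a (base h x_i)) = N` -/
noncomputable def R (k : ℕ) (h : ℝ) (a : ℕ → ℕ) (N : ℕ) : ℕ :=
  {x : Fin (4 * k) → ℕ | (∀ i, 1 ≤ x i) ∧ Function.Injective x ∧ ∑ i, (x i ^ k + a (base h (x i))) = N}.ncard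

theorem result (k q : ℕ) (hq1 : 1 ≤ q) (hq : q + 2 ≤ k) (hs : 2 ^ q < 4 * k) (η h : ℝ)
    (hη : ((k : ℝ) - η) * (4 * k + q * 2 ^ q) < 4 * k * (q + 1)) (hη1 : η ≤ k - 1)
    (hh0 : 0 ≤ h) (hh : h < 1 / 2)
    {Ω : Type*} [MeasurableSpace Ω] (μ : Measure Ω) [IsProbabilityMeasure μ]
    (δ : ℕ → Ω → ℕ) (hm : ∀ m, Measurable (δ m)) (hind : iIndepFun δ μ)
    (hu : ∀ m, ∀ d < size η m, μ {ω | δ m ω = d} = 1 / (size η m : ENNReal)) :
    ∀ᵐ ω ∂μ, Tendsto (fun N : ℕ => (R k h (fun m => δ m ω) N : ℝ) / (N : ℝ) ^ 3) atTop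
      (𝓝 (Real.Gamma (1 + 1 / k) ^ (4 * k) / 6)) := by
  have hk0 : (0 : ℝ) < k := by exact_mod_cast (by omega : 0 < k)
  obtain ⟨n, hn⟩ : ∃ n, 4 * k = n + 2 := ⟨4 * k - 2, by omega⟩
  have hnR : ((n + 2 : ℕ) : ℝ) = 4 * k := by rw [← hn]; push_cast; ring
  have h1 := Pool.Agent.X30.WS.asymp_inj2 k q n hq1 hq (by rw [hnR]; exact_mod_cast hs) η h
    (by rw [hnR]; exact hη) hη1 hh0 (by rw [hnR]; nlinarith) δ hm hind hu
  have h2 : (((n + 2 : ℕ) : ℝ) / k - 1) = ((3 : ℕ) : ℝ) := by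
    rw [hnR]
    push_cast
    field_simp
    norm_num
  have h3 : (((n + 2 : ℕ) : ℝ) / k) = ((3 : ℕ) : ℝ) + 1 := by
    rw [hnR]
    push_cast
    field_simp
    norm_num
  rw [h2, h3, Real.Gamma_nat_eq_factorial, ← hn] at h1
  filter_upwards [h1] with ω hω
  simp only [Real.rpow_natCast] at hω
  norm_num [Nat.factorial] at hω ⊢
  exact hω

end Pool.Agent.Results.MP_ee77ae_nt.DistinctFourK
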