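import Mathlib
import Pool.Agent.X25.MW.FinShift
import Pool.Agent.X25.CT.ForShift

/-!
MP_ee77ae_nt, Q1 (is `G(k) ≤ 4k`?): Waring's problem with shifts, for almost all shift vectors.

For a vector `θ` of nonnegative shifts and real `τ` we count the solutions of
`|(x_1 + θ_1)^k + ... + (x_s + θ_s)^k - τ| ≤ η` in positive integers. For `θ = 0`, `η = 1/2` and a natural
number `τ = n` these are the representations of `n` as a sum of `s` positive `k`-th powers (lemma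
`reps_zero`). For almost every `θ` we prove that `s ≥ k + 2 + log_2 k` (rounded down) variables, that is
`2^(s-k-1) > k`, give a number of solutions of the expected order `τ^(s/k-1)` (as a lower bound) for all
large `τ`, also for `η` shrinking like a power of `τ`; and that `k+1` variables do the same
for almost all `τ`, with a power saving in the measure of the exceptional set.
-/

set_option autoImplicit false

namespace Pool.Agent.Results.MP_ee77ae_nt.GenericShiftsCounts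

open Filter MeasureTheory

/-- The number of `x` with all `x_i ≥ 1` and `|∑ (x_i + θ_i)^k - τ| ≤ η`. -/
noncomputable def reps (k s : ℕ) (θ : Fin s → ℝ) (η τ : ℝ) : ℕ :=
  {x : Fin s → ℕ | (∀ i, 1 ≤ x i) ∧ |∑ i, ((x i : ℝ) + θ i) ^ k - τ| ≤ η}.ncard

/-- Without shifts: representations of `n` as a sum of `s` positive `k`-th powers. -/
theorem reps_zero (k s n : ℕ) :
    reps k s 0 (1 / 2) n = {x : Fin s → ℕ | (∀ i, 1 ≤ x i) ∧ ∑ i, x i ^ k = n}.ncard := by
  unfold reps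
  congr 1
  ext x
  simp only [Set.mem_setOf_eq, Pi.zero_apply, add_zero]
  refine and_congr_right fun _ => ?_
  have e : (∑ i, (x i : ℝ) ^ k) - (n : ℝ) = (((∑ i, x i ^ k : ℕ) : ℤ) - (n : ℤ) : ℤ) := by
    push_cast
    rfl
  rw [e]
  constructor
  · intro h
    have h1 : |(((∑ i, x i ^ k : ℕ) : ℤ) - (n : ℤ) : ℤ)| < 1 := by
      have h2 : (|(((∑ i, x i ^ k : ℕ) : ℤ) - (n : ℤ) : ℤ)| : ℝ) < 1 := by
        refine lt_of_le_of_lt h (by norm_num)
      exact_mod_cast h2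
    have h3 := Int.abs_lt_one_iff.1 h1
    have h4 : ((∑ i, x i ^ k : ℕ) : ℤ) = (n : ℤ) := by linarith
    exact_mod_cast h4
  · intro h
    rw [h]
    simp

/-- `2^(s-k-1) > k` holds as soon as `s ≥ k + 2 + log_2 k`; in particular for `s = 4k`. -/
theorem log_condition (k s : ℕ) (hs : k + 2 + Nat.log 2 k ≤ s) : k < 2 ^ (s - k - 1) := by
  refine (Nat.lt_pow_succ_log_self (b := 2) (by norm_num) k).trans_le ?_
  exact Nat.pow_le_pow_right (by norm_num) (by omega)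

theorem result (k : ℕ) (hk : 2 ≤ k) :
    -- (1) all large `τ`, at least `k + 2 + log_2 k` variables
    (∀ s : ℕ, k < 2 ^ (s - k - 1) → ∀ᵐ θ : Fin s → ℝ, (∀ i, 0 ≤ θ i) →
      ∀ κ η : ℝ, κ < ((2:ℝ) ^ (s - k - 1) - k) / (k * ((2:ℝ) ^ (s - k - 1) + 1)) → 0 < η →
        ∃ c : ℝ, 0 < c ∧ ∃ τ₀ : ℝ, ∀ τ : ℝ, τ₀ ≤ τ →
          c * τ ^ ((s : ℝ) / k - 1 - κ) ≤ reps k s θ (η * τ ^ (-κ)) τ) ∧
    -- (2) almost all `τ`, at least `k+1` variables
    (∀ s : ℕ, k + 1 ≤ s → ∀ᵐ θ : Fin s → ℝ, (∀ i, θ i ∈ Set.Icc (0 : ℝ) 1) →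
      ∀ η : ℝ, 0 < η → ∃ c : ℝ, 0 < c ∧ ∃ T₀ : ℝ, ∀ T : ℝ, T₀ ≤ T →
        volume {τ : ℝ | 0 ≤ τ ∧ τ ≤ T ∧ (reps k s θ η τ : ℝ) < c * τ ^ ((s : ℝ) / k - 1)} ≤
          ENNReal.ofReal (T ^ (1 - 1 / (8 * (k : ℝ))))) :=
  ⟨fun s hs => Pool.Agent.X25.CT.shift_few k s hk hs,
    fun s hs => Pool.Agent.X25.MW.shift_most k s hk hs⟩

end Pool.Agent.Results.MP_ee77ae_nt.GenericShiftsCounts
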