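import Pool.Agent.X114.WM.Metric

/-!
MP_ee77ae_nt, Q1 (is `G(k) ≤ 4k`?): the metric form of the question.

For a real `l > 0` ask whether every large integer is the integer part of `u + l v` with `u` and `v`
sums of `2k` positive `k`-th powers. For `l = 1` this is the question `G(k) ≤ 4k` itself (see
`all_one_iff`). We prove it for almost every `l > 0`, with about `2.78 k` powers in all in place of
`4k`, and with the error `N ^ (-κ)` for every `κ < 1 - 2 (1 - 1/k) ^ s`.
-/

set_option autoImplicit false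

namespace Pool.Agent.Results.MP_ee77ae_nt.MetricTwoTerms

open Filter MeasureTheory

/-- `n` is a sum of `t` `k`-th powers of positive integers. -/
def IsSum (k t n : ℕ) : Prop := ∃ x : Fin t → ℕ, (∀ i, 0 < x i) ∧ ∑ i, x i ^ k = n

/-- Every large integer is the integer part of `u + l v` with `u` and `v` sums of `t` `k`-th powers of
positive integers (so `2 t` powers are used in all). -/
def All (k t : ℕ) (l : ℝ) : Prop :=
  ∀ᶠ n : ℕ in atTop, ∃ u v : ℕ, IsSum k t u ∧ IsSum k t v ∧ ⌊(u : ℝ) + l * v⌋₊ = n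

/-- For `l = 1` the property `All k t l` says that every large integer is a sum of `2 t` positive
`k`-th powers. -/
theorem all_one_iff (k t : ℕ) : All k t 1 ↔ ∀ᶠ n : ℕ in atTop, IsSum k (t + t) n := by
  unfold All
  constructor
  · intro h
    filter_upwards [h] with n hn
    obtain ⟨u, v, hu, hv, huv⟩ := hn
    have h1 : u + v = n := by
      rw [one_mul] at huv
      have h2 : ⌊((u + v : ℕ) : ℝ)⌋₊ = u + v := Nat.floor_natCast _
      push_cast at h2
      rw [← huv, h2]
    rw [← h1]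
    exact Pool.Agent.X114.WR.Rep.add hu hv
  · intro h
    filter_upwards [h] with n hn
    obtain ⟨x, hx, hx'⟩ := hn
    refine ⟨∑ i : Fin t, x (Fin.castAdd t i) ^ k, ∑ i : Fin t, x (Fin.natAdd t i) ^ k,
      ⟨fun i => x (Fin.castAdd t i), fun i => hx _, rfl⟩,
      ⟨fun i => x (Fin.natAdd t i), fun i => hx _, rfl⟩, ?_⟩
    rw [one_mul, ← Nat.cast_add, Nat.floor_natCast, ← hx', Fin.sum_univ_add]

theorem result (k : ℕ) (hk : 2 ≤ k) (s : ℕ) (hs : 1 ≤ s) :
    -- (1) two terms, each a sum of `2 s` powers, approximate all large reals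
    (∀ κ : ℝ, κ < 1 - 2 * (1 - 1 / (k : ℝ)) ^ s → ∀ᵐ l : ℝ, 0 < l → ∀ᶠ N : ℝ in atTop,
      ∃ u v : ℕ, IsSum k (2 * s) u ∧ IsSum k (2 * s) v ∧ |(u : ℝ) + l * v - N| ≤ N ^ (-κ)) ∧
    -- (2) integer parts, as soon as `s ≥ k log 2`
    (Real.log 2 * k ≤ s → ∀ᵐ l : ℝ, 0 < l → All k (2 * s) l) := by
  obtain ⟨r, rfl⟩ : ∃ r, s = r + 1 := ⟨s - 1, by omega⟩
  have e : 2 * (r + 1) = r + 1 + (r + 1) := by ring
  rw [e]
  refine ⟨fun κ hκ => ?_, fun h => ?_⟩
  · filter_upwards [Pool.Agent.X114.WM.metric (s := r) hk hκ] with l hl hl0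
    exact hl hl0.le
  · filter_upwards [Pool.Agent.X114.WM.metric_floor (s := r) hk (by exact_mod_cast h)] with l hl hl0
    exact hl hl0.le

end Pool.Agent.Results.MP_ee77ae_nt.MetricTwoTerms
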