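import Mathlib
import Pool.Agent.X30.PS1

/-!
# Exactly `4 k` summands: exact `k`-th powers and few slightly perturbed ones
-/

set_option autoImplicit false

namespace Pool.Agent.Results.MP_ee77ae_nt.NearlyExactFourK

open MeasureTheory ProbabilityTheory

/-- the number of values of the random perturbation of `n ^ k`: at most `n ^ η`, for `n ≥ 1` -/
noncomputable def size (η : ℝ) (n : ℕ) : ℕ := 2 ^ ⌊η * Nat.log 2 n⌋₊

theorem result (k t : ℕ) (hk : 2 ≤ k) (η : ℝ) (hη1 : η ≤ k - 1)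
    (h : ((k : ℝ) / 53 ≤ η ∧ t = k / 53 + 1) ∨
      (∃ r u : ℕ, r + u + t = 4 * k ∧ (k : ℝ) * (1 - 1 / (k : ℝ)) ^ r < η ∧
        η * (1 - 1 / (k : ℝ)) ^ u < t))
    {Ω : Type*} [MeasurableSpace Ω] (μ : Measure Ω) [IsProbabilityMeasure μ]
    (δ : ℕ → Ω → ℕ) (hm : ∀ n, Measurable (δ n)) (hind : iIndepFun δ μ)
    (hu : ∀ n, ∀ d < size η n, μ {ω | δ n ω = d} = 1 / (size η n : ENNReal)) :
    ∀ᵐ ω ∂μ, ∃ N0 : ℕ, ∀ N : ℕ, N0 ≤ N → ∃ z : Fin (4 * k - t) → ℕ, ∃ x : Fin t → ℕ,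
      (∀ i, 1 ≤ z i) ∧ (∀ i, 1 ≤ x i) ∧ N = ∑ i, (z i) ^ k + ∑ i, (x i ^ k + δ (x i) ω) := by
  rcases h with ⟨h1, rfl⟩ | ⟨r, u, h1, h2, h3⟩
  · exact Pool.Agent.X30.PS.few' k (4 * k) (53) hk (by norm_num) η hη1
      (by push_cast; exact h1) (Pool.Agent.X30.PS.crit4 k hk) δ hm hind hu
  · have e1 : 4 * k - t = r + u := by omega
    rw [e1]
    exact Pool.Agent.X30.PQ.mixed k r u t hk η h2 hη1 h3 δ hm hind hu

end Pool.Agent.Results.MP_ee77ae_nt.NearlyExactFourK
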